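import Pool.Agent.Helper77.SO.St
import Pool.Agent.Helper15.OF4.C1

/-!
# MP_7a9ddc_co, project SO, module HR: the rotation system of `HG G W S`
-/

set_option autoImplicit false

namespace Pool.Agent.Helper2.SO.HR

open Equiv Equiv.Perm Pool.Agent.Helper35.PM Pool.Agent.Helper77.HY Pool.Agent.Helper77.OF4
  Pool.Agent.Helper77.SO Pool.Agent.Helper15.OF4.C1

theorem main : StHr := by
  classical
  intro V _ G R W r' hind hpl hout hin S hS
  have hfG : Finite G.Dart := fin_dart
  have hfH : Finite (HG G W S).Dart := fin_dart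
  have := Fintype.ofFinite G.Dart
  have := Fintype.ofFinite (HG G W S).Dart
  -- a choice of neighbours in `W`
  have hf : ∀ v : V, ∃ w : V, (∃ w ∈ W, G.Adj v w) → w ∈ W ∧ G.Adj v w := by
    intro v
    by_cases h : ∃ w ∈ W, G.Adj v w
    · obtain ⟨w, hw⟩ := h
      exact ⟨w, fun _ => hw⟩
    · exact ⟨v, fun h' => absurd h' h⟩
  choose f hf using hf
  have hc : ∀ d : (HG G W S).Dart, ∃ e : G.Dart,
      (∀ u, d.fst = some u → e.fst = u.1) ∧ (∀ u, d.snd = some u → e.snd = u.1) ∧
      (d.fst = none → e.fst ∈ W ∧ ∀ v, d.snd = some v → e.fst = f v.1) ∧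
      (d.snd = none → e.snd ∈ W ∧ ∀ v, d.fst = some v → e.snd = f v.1) := by
    rintro ⟨⟨x, y⟩, h⟩
    rcases x with _ | u
    · rcases y with _ | v
      · exact (h : False).elim
      · have h1 := hf v.1 h
        refine ⟨⟨(f v.1, v.1), h1.2.symm⟩, ?_, ?_, ?_, ?_⟩
        · intro u hu
          cases hu
        · intro u hu
          cases hu
          rfl
        · intro _
          refine ⟨h1.1, ?_⟩
          intro u hu
          cases hu
          rfl
        · intro hu
          cases hu
    · rcases y with _ | v
      · have h1 := hf u.1 h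
        refine ⟨⟨(u.1, f u.1), h1.2⟩, ?_, ?_, ?_, ?_⟩
        · intro u hu
          cases hu
          rfl
        · intro u hu
          cases hu
        · intro hu
          cases hu
        · intro _
          refine ⟨h1.1, ?_⟩
          intro u hu
          cases hu
          rfl
      · refine ⟨⟨(u.1, v.1), h⟩, ?_, ?_, ?_, ?_⟩
        · intro u hu
          cases hu
          rfl
        · intro u hu
          cases hu
          rfl
        · intro hu
          cases hu
        · intro hu
          cases hu
  choose c hc1 hc2 hc3 hc4 using hc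
  have hsym : ∀ d, (c d).symm = c d.symm := by
    intro d
    apply SimpleGraph.Dart.ext
    apply Prod.ext
    · show (c d).snd = (c d.symm).fst
      rcases hx : d.snd with _ | u
      · rcases hy : d.fst with _ | v
        · exfalso
          have h := d.adj
          have h' : (HG G W S).Adj d.fst d.snd := h
          rw [hx, hy] at h'
          exact h'
        · rw [(hc4 d hx).2 v hy, (hc3 d.symm hx).2 v hy]
      · rw [hc2 d u hx, hc1 d.symm u hx]
    · show (c d).fst = (c d.symm).snd
      rcases hx : d.fst with _ | u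
      · rcases hy : d.snd with _ | v
        · exfalso
          have h := d.adj
          have h' : (HG G W S).Adj d.fst d.snd := h
          rw [hx, hy] at h'
          exact h'
        · rw [(hc3 d hx).2 v hy, (hc4 d.symm hx).2 v hy]
      · rw [hc1 d u hx, hc2 d.symm u hx]
  let g : Option {v : V // v ∈ S} → Option {v : V // v ∉ W} :=
    Option.map fun v => ⟨v.1, hS v.1 v.2⟩
  have hg : Function.Injective g := by
    apply Option.map_injective
    intro u v huv
    exact Subtype.ext (Subtype.mk.inj huv)
  let M := mm R W r' hpl hout hin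
  have ht : ∀ d, M.t (c d) = g d.fst := by
    intro d
    show tt W (c d) = g d.fst
    rcases hx : d.fst with _ | u
    · rw [tt_pos (hc3 d hx).1]
      rfl
    · have h1 := hc1 d u hx
      have h2 : (c d).fst ∉ W := by
        rw [h1]
        exact hS u.1 u.2
      rw [tt_neg h2]
      show some _ = some _
      congr 2
  have hcinj : Function.Injective c := by
    intro d d' h
    apply SimpleGraph.Dart.ext
    apply Prod.ext
    · apply hg
      show g d.fst = g d'.fst
      rw [← ht, ← ht, h]
    · apply hg
      show g d.symm.fst = g d'.symm.fst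
      rw [← ht, ← ht, ← hsym, ← hsym, h]
  obtain ⟨R', -, -, hR'⟩ := M.exists_rot g hg c hcinj ht hsym
  choose N hN1 hN2 using hR'
  have hN1' : ∀ d, c (R'.r d) = (r' ^ (N d + 1)) (c d) := hN1
  have hN2' : ∀ d, ∀ j < N d, (r' ^ (j + 1)) (c d) ∉ Set.range c := hN2
  refine ⟨R', fun a0 ha0 => ?_⟩
  let k : ℕ → ℕ := fun i => Nat.rec (motive := fun _ => ℕ) 0 (fun i x => x + N ((R'.r ^ i) a0) + 1) i
  have k0 : k 0 = 0 := rfl
  have ks : ∀ i, k (i + 1) = k i + N ((R'.r ^ i) a0) + 1 := fun i => rfl
  have hck : ∀ i, c ((R'.r ^ i) a0) = (r' ^ (k i)) (c a0) := by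
    intro i
    induction i with
    | zero => rfl
    | succ i ih =>
      rw [pow_succ' R'.r, Perm.mul_apply, hN1', ih, ← Perm.mul_apply, ← pow_add, ks]
      congr 2
      omega
  have kmono : StrictMono k := strictMono_nat_of_lt_succ fun i => by
    rw [ks]
    omega
  set m := Function.minimalPeriod R'.r a0 with hm
  have hmpos : 0 < m := by
    rw [hm]
    exact Function.minimalPeriod_pos_of_mem_periodicPts (R'.r.injective.mem_periodicPts a0)
  set N' := Function.minimalPeriod r' (c a0) with hN'
  have hN'pos : 0 < N' := by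
    rw [hN']
    exact Function.minimalPeriod_pos_of_mem_periodicPts (r'.injective.mem_periodicPts (c a0))
  have hm1 : (R'.r ^ m) a0 = a0 := by
    rw [← Equiv.Perm.iterate_eq_pow]
    exact Function.iterate_minimalPeriod
  have hN'1 : (r' ^ N') (c a0) = c a0 := by
    rw [← Equiv.Perm.iterate_eq_pow]
    exact Function.iterate_minimalPeriod
  have hkmpos : 0 < k m := by
    rw [← k0]
    exact kmono hmpos
  have hle : N' ≤ k m := by
    have h1 : Function.IsPeriodicPt r' (k m) (c a0) := by
      show (r')^[k m] (c a0) = c a0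
      rw [Equiv.Perm.iterate_eq_pow, ← hck, hm1]
    exact Function.IsPeriodicPt.minimalPeriod_le hkmpos h1
  have hex : ∃ i, N' ≤ k i := ⟨m, hle⟩
  have hge : k m ≤ N' := by
    obtain ⟨i, h1, h4⟩ : ∃ i, N' ≤ k (i + 1) ∧ k i < N' := by
      by_contra hcon
      push Not at hcon
      have h2 : ∀ i, k i < N' := by
        intro i
        induction i with
        | zero =>
          rw [k0]
          exact hN'pos
        | succ i ih =>
          by_contra h3
          exact absurd ih (not_lt.2 (hcon i (not_lt.1 h3)))
      obtain ⟨i, hi⟩ := hex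
      exact absurd (h2 i) (not_lt.2 hi)
    have h5 : N' = k (i + 1) := by
      by_contra hne
      have h6 : N' < k (i + 1) := lt_of_le_of_ne h1 hne
      rw [ks] at h6
      have h7 := hN2' ((R'.r ^ i) a0) (N' - k i - 1) (by omega)
      apply h7
      rw [hck, ← Perm.mul_apply, ← pow_add]
      have h8 : N' - k i - 1 + 1 + k i = N' := by omega
      rw [h8, hN'1]
      exact ⟨a0, rfl⟩
    have h9 : (R'.r ^ (i + 1)) a0 = a0 := by
      apply hcinj
      rw [hck, ← h5, hN'1]
    have h10 : m ≤ i + 1 := by
      have h11 : Function.IsPeriodicPt R'.r (i + 1) a0 := by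
        show (R'.r)^[i + 1] a0 = a0
        rw [Equiv.Perm.iterate_eq_pow, h9]
      exact Function.IsPeriodicPt.minimalPeriod_le (by omega) h11
    rw [h5]
    exact kmono.monotone h10
  have hfst : ∀ i, ((R'.r ^ i) a0).fst = none := by
    intro i
    induction i with
    | zero => exact ha0
    | succ i ih => rw [pow_succ', Perm.mul_apply, R'.fst_r, ih]
  refine ⟨k, c a0, (hc3 a0 ha0).1, k0, fun i => kmono (Nat.lt_succ_self i), le_antisymm hge hle,
    fun i => ?_⟩
  rcases hx : ((R'.r ^ i) a0).snd with _ | x
  · exfalso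
    have h' : (HG G W S).Adj ((R'.r ^ i) a0).fst ((R'.r ^ i) a0).snd := ((R'.r ^ i) a0).adj
    rw [hx, hfst i] at h'
    exact h'
  · refine ⟨x, rfl, ?_⟩
    rw [← hck]
    exact hc2 _ x hx

end Pool.Agent.Helper2.SO.HR
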