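import Pool.Agent.Helper77.SO.St
import Pool.Agent.Helper84.OF4.FO

/-!
# MP_7a9ddc_co, project SO, module IND: the induction
-/

set_option autoImplicit false

namespace Pool.Agent.Helper2.SO.IND

open Equiv Equiv.Perm Pool.Agent.Helper35.PM Pool.Agent.Helper77.HY Pool.Agent.Helper77.OF4
  Pool.Agent.Helper77.SO

theorem main (hOg : StOg) (hXf : StXf) (hFh : StFh) (hL2 : StL2)
    (hFc : Pool.Agent.Helper77.OF4.StFc) (hP2 : Pool.Agent.Helper77.OF4.StP2) : StInd := by
  classical
  intro L hL hLe hbase n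
  induction n with
  | zero =>
    intro V D _ _ _ M hn
    exfalso
    have : 0 < Nat.card V := Nat.card_pos
    omega
  | succ n ih =>
    intro V D _ _ _ M hcard hconn hHC hodd
    by_cases hall : ∀ d, Function.minimalPeriod M.φ d = 2 ∨ Function.minimalPeriod M.φ d = L + 1
    · exact hbase V D M hconn hHC hodd hall
    · push Not at hall
      obtain ⟨d0, h1, h2⟩ := hall
      have hOG := hOg V D M L hL hHC
      obtain ⟨d, h, hDg⟩ := hXf V D M L d0 hL hLe hHC hconn hOG h1 h2
      have hne : Nonempty {v : V // v ≠ M.t (M.φ (M.φ d))} := ⟨⟨M.t d, h⟩⟩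
      have hlt : Nat.card {v : V // v ≠ M.t (M.φ (M.φ d))} < Nat.card V :=
        Finite.card_subtype_lt (x := M.t (M.φ (M.φ d))) (fun hx => hx rfl)
      have k1 : M.φ d ≠ d := by
        intro h0
        apply hOG.1 d
        rw [← t_φ M d, h0]
      have k2 : M.φ (M.φ d) ≠ d := by
        intro h0
        apply h
        rw [h0]
      have k3 : M.φ (M.φ d) ≠ M.φ d := fun h0 => k1 (M.φ.injective h0)
      obtain ⟨-, -, -, e4⟩ := hP2 D M.φ d k1 k2
      have hf := Pool.Agent.Helper84.OF4.FO.fold_φ M d h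
      rw [← hf] at e4
      have hper : ∀ x : D, Function.minimalPeriod M.φ (M.φ x) = Function.minimalPeriod M.φ x := by
        intro x
        exact Function.minimalPeriod_apply (M.φ.injective.mem_periodicPts x)
      have hodd' : ∃ e, OddD (fold M d h) e := by
        obtain ⟨e, he⟩ := hodd
        have he0 : Odd (Function.minimalPeriod M.φ e) := he
        by_cases hc : e ≠ d ∧ e ≠ M.φ d
        · exact ⟨e, (e4 e hc.1 hc.2).2 he0⟩
        · refine ⟨M.φ (M.φ d), (e4 _ k2 k3).2 ?_⟩
          rw [hper, hper]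
          rw [not_and_or, not_not, not_not] at hc
          rcases hc with rfl | rfl
          · exact he0
          · rw [hper] at he0
            exact he0
      obtain ⟨W1, hW1, hQ⟩ := ih {v : V // v ≠ M.t (M.φ (M.φ d))} D (fold M d h) (by omega)
        (hFc V D M d h hconn) (hFh V D M d h L hOG hHC hDg) hodd'
      exact ⟨pr (M.t d) (M.t (M.φ (M.φ d))) h ⁻¹' W1, fun e he hc => hW1 e he hc,
        hL2 V D M d h W1 hQ⟩

end Pool.Agent.Helper2.SO.IND
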